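import Pool.Agent.H.MP_ad013a_pr.h63.Sound
import Pool.Agent.H.MP_ad013a_pr.h63.Flat
import Pool.Agent.H.MP_ad013a_pr.h63l.A.F

/-!
# The lower bound for fair letters, larger table
-/

namespace Pool.Agent.ad013a

open Filter Topology

theorem halfL : ∃ C : ℝ, Tendsto (fun n : ℕ => EL (1 / 2) n / n) atTop (𝓝 C) ∧ 0.7953 < C := by
  obtain ⟨C, hC⟩ := exists_lim (p := 1 / 2) (by norm_num) (by norm_num)
  refine ⟨C, hC, ?_⟩
  have hh : ∀ i, chkE true 2 250000 99415 1 1 LA.g (LA.g i) = true := by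
    intro i
    rw [← chkF_eq]
    exact LA.all_ok i
  have := lim_ge_of_chk (by norm_num) (by norm_num) (by norm_num) (by norm_num) (by norm_num)
    hh LA.start_ok (p := 1 / 2) (by norm_num)
    (by norm_num) (fun _ => rfl) hC
  norm_num at this
  linarith

end Pool.Agent.ad013a
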